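import Pool.Agent.helper41.G5.SpecG

/-!
# d2: gFAM: size of the families (helper79)
-/

set_option autoImplicit false

open Filter Topology MeasureTheory
open scoped commutatorElement

namespace Pool.Agent.helper90.DH

open Pool.Agent.helper64.D2

theorem gFAM : gFAM_stmt := by
  intro q m φ hm hφ
  have h1 := Nat.count_modEq_card q (r := m) (by omega) φ
  rw [Nat.count_eq_card_filter_range] at h1
  have h2 : (fam q m φ) = Finset.filter (fun x => x ≡ φ [MOD m]) (Finset.range q) := by
    unfold fam
    apply Finset.filter_congr
    intro x _
    unfold Nat.ModEq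
    rw [Nat.mod_eq_of_lt hφ]
  rw [h2, h1]
  constructor
  · omega
  · split_ifs <;> omega

end Pool.Agent.helper90.DH
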